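import Mathlib

/-!
# MP_93d976_co: dismantling solutions in thin cuboids

(a) is true: `C(2,2,k)` has no solution for `k ≥ 3`, `k ≠ 5`.
(b) is false: `C(2,3,9)` has a solution.
(c) is false: `C(3,3,6)` has a solution.
-/

namespace Pool.Agent.Results.MP_93d976_co.ThinCuboids

open Relation

/-- The six cubes sharing a face with the cube `c`: one coordinate is changed by `1`. -/
def nbrs (c : ℤ × ℤ × ℤ) : Finset (ℤ × ℤ × ℤ) :=
  {(c.1 + 1, c.2.1, c.2.2), (c.1 - 1, c.2.1, c.2.2),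
   (c.1, c.2.1 + 1, c.2.2), (c.1, c.2.1 - 1, c.2.2),
   (c.1, c.2.1, c.2.2 + 1), (c.1, c.2.1, c.2.2 - 1)}

/-- The box `C(k,l,m) = {1,…,k} × {1,…,l} × {1,…,m}`. -/
noncomputable def box (k l m : ℕ) : Finset (ℤ × ℤ × ℤ) :=
  Finset.Icc 1 (k : ℤ) ×ˢ Finset.Icc 1 (l : ℤ) ×ˢ Finset.Icc 1 (m : ℤ)

/-- A move deletes from the position `P` a cube with exactly three neighbours in `P`. -/
def Move (P Q : Finset (ℤ × ℤ × ℤ)) : Prop :=
  ∃ c ∈ P, (nbrs c ∩ P).card = 3 ∧ Q = P.erase c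

/-- A solution in `C(k,l,m)`: no two cubes of `S` are neighbours, and `S` is reached from the full
box by a finite sequence of moves. -/
def IsSolution (k l m : ℕ) (S : Finset (ℤ × ℤ × ℤ)) : Prop :=
  ReflTransGen Move (box k l m) S ∧ ∀ a ∈ S, ∀ b ∈ S, b ∉ nbrs a

/-- `C(k,l,m)` has a solution. -/
def HasSolution (k l m : ℕ) : Prop := ∃ S, IsSolution k l m S

theorem mem_box {k l m : ℕ} {c : ℤ × ℤ × ℤ} : c ∈ box k l m ↔
    (1 ≤ c.1 ∧ c.1 ≤ k) ∧ (1 ≤ c.2.1 ∧ c.2.1 ≤ l) ∧ (1 ≤ c.2.2 ∧ c.2.2 ≤ m) := by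
  simp [box]

theorem self_notMem_nbrs (c : ℤ × ℤ × ℤ) : c ∉ nbrs c := by
  obtain ⟨x, y, z⟩ := c
  simp only [nbrs, Finset.mem_insert, Finset.mem_singleton, Prod.mk.injEq]
  omega

/-! ### Existence from a time function -/

theorem exists_of_time {k l m : ℕ} (t : ℤ × ℤ × ℤ → ℕ)
    (h1 : ∀ c ∈ box k l m, 0 < t c →
      ((nbrs c ∩ box k l m).filter (fun d => t d < t c)).card = 3)
    (h2 : ∀ c ∈ box k l m, ∀ d ∈ box k l m, t c = t d → t c = 0 ∨ c = d)
    (h3 : ∀ c ∈ box k l m, t c = 0 → ∀ d ∈ nbrs c ∩ box k l m, 0 < t d) :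
    HasSolution k l m := by
  let P : ℕ → Finset (ℤ × ℤ × ℤ) := fun n => (box k l m).filter (fun c => t c ≤ n)
  have hstep : ∀ n, ReflTransGen Move (P n) (P 0) := by
    intro n
    induction n with
    | zero => exact ReflTransGen.refl
    | succ n ih =>
        by_cases h : ∃ c ∈ box k l m, t c = n + 1
        · obtain ⟨c, hc, hcn⟩ := h
          refine ReflTransGen.head ⟨c, ?_, ?_, ?_⟩ ih
          · simp only [P, Finset.mem_filter]
            exact ⟨hc, by omega⟩
          · rw [← h1 c hc (by omega)]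
            congr 1
            ext d
            simp only [P, Finset.mem_inter, Finset.mem_filter]
            constructor
            · rintro ⟨hd, hdb, hdt⟩
              refine ⟨⟨hd, hdb⟩, ?_⟩
              rcases Nat.lt_or_ge (t d) (t c) with h | h
              · exact h
              · have : t c = t d := by omega
                rcases h2 c hc d hdb this with h' | h'
                · omega
                · exact absurd (h' ▸ hd) (self_notMem_nbrs c)
            · rintro ⟨⟨hd, hdb⟩, hdt⟩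
              exact ⟨hd, hdb, by omega⟩
          · ext d
            simp only [P, Finset.mem_erase, Finset.mem_filter]
            constructor
            · rintro ⟨hdb, hdt⟩
              refine ⟨?_, hdb, by omega⟩
              rintro rfl
              omega
            · rintro ⟨hne, hdb, hdt⟩
              refine ⟨hdb, ?_⟩
              rcases Nat.lt_or_ge (t d) (n + 1) with h | h
              · omega
              · have : t c = t d := by omega
                rcases h2 c hc d hdb this with h' | h'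
                · omega
                · exact absurd h'.symm hne
        · have : P (n + 1) = P n := by
            ext d
            simp only [P, Finset.mem_filter]
            constructor
            · rintro ⟨hd, hdt⟩
              refine ⟨hd, ?_⟩
              by_contra h'
              exact h ⟨d, hd, by omega⟩
            · rintro ⟨hd, hdt⟩
              exact ⟨hd, by omega⟩
          rw [this]
          exact ih
  have hfull : P ((box k l m).sup t) = box k l m := by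
    simp only [P]
    rw [Finset.filter_true_of_mem]
    intro c hc
    exact Finset.le_sup (f := t) hc
  refine ⟨P 0, ?_, ?_⟩
  · have := hstep ((box k l m).sup t)
    rw [hfull] at this
    exact this
  · intro a ha b hb hab
    simp only [P, Finset.mem_filter] at ha hb
    have := h3 a ha.1 (by omega) b (Finset.mem_inter.2 ⟨hab, hb.1⟩)
    omega

/-- times (in order of re-insertion) for `C(2,3,9)`; `0` marks the cubes of the solution -/
def tab9 : List ℕ :=
  [1, 0, 33, 0, 7, 0,  0, 18, 31, 4, 15, 22,  28, 27, 29, 0, 8, 0,  30, 26, 0, 5, 0, 12,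
   32, 25, 20, 0, 9, 17,  34, 24, 0, 6, 0, 13,  35, 23, 2, 0, 10, 0,  36, 19, 0, 21, 16, 14,
   37, 0, 3, 0, 11, 0]

/-- the time function for `C(2,3,9)` -/
def t9 (c : ℤ × ℤ × ℤ) : ℕ := tab9.getD (((c.2.2 - 1) * 2 + (c.1 - 1)) * 3 + (c.2.1 - 1)).toNat 0

/-- times (in order of re-insertion) for `C(3,3,6)`; `0` marks the cubes of the solution -/
def tab6 : List ℕ :=
  [0, 1, 0, 29, 12, 15, 33, 0, 34,  27, 0, 2, 25, 10, 0, 0, 7, 30,
   31, 28, 24, 22, 21, 23, 5, 0, 26,  35, 32, 0, 20, 19, 18, 0, 8, 0,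
   37, 36, 17, 0, 13, 16, 6, 11, 14,  39, 38, 0, 3, 0, 4, 0, 9, 0]

/-- the time function for `C(3,3,6)` -/
def t6 (c : ℤ × ℤ × ℤ) : ℕ := tab6.getD (((c.2.2 - 1) * 3 + (c.1 - 1)) * 3 + (c.2.1 - 1)).toNat 0

theorem sol239 : HasSolution 2 3 9 :=
  exists_of_time t9 (by decide +kernel) (by decide +kernel) (by decide +kernel)

theorem sol336 : HasSolution 3 3 6 :=
  exists_of_time t6 (by decide +kernel) (by decide +kernel) (by decide +kernel)

/-! ### The number of cubes of a solution -/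

theorem mem_nbrs_symm {a b : ℤ × ℤ × ℤ} (h : a ∈ nbrs b) : b ∈ nbrs a := by
  obtain ⟨x, y, z⟩ := a
  obtain ⟨x', y', z'⟩ := b
  simp only [nbrs, Finset.mem_insert, Finset.mem_singleton, Prod.mk.injEq] at h ⊢
  rcases h with h | h | h | h | h | h
  · exact Or.inr (Or.inl ⟨by omega, by omega, by omega⟩)
  · exact Or.inl ⟨by omega, by omega, by omega⟩
  · exact Or.inr (Or.inr (Or.inr (Or.inl ⟨by omega, by omega, by omega⟩)))
  · exact Or.inr (Or.inr (Or.inl ⟨by omega, by omega, by omega⟩))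
  · exact Or.inr (Or.inr (Or.inr (Or.inr (Or.inr ⟨by omega, by omega, by omega⟩))))
  · exact Or.inr (Or.inr (Or.inr (Or.inr (Or.inl ⟨by omega, by omega, by omega⟩))))

theorem mem_nbrs_comm {a b : ℤ × ℤ × ℤ} : a ∈ nbrs b ↔ b ∈ nbrs a :=
  ⟨mem_nbrs_symm, mem_nbrs_symm⟩

/-- the invariant: the sum of the degrees drops by `6` at each move -/
theorem move_inv {P Q : Finset (ℤ × ℤ × ℤ)} (h : Move P Q) :
    P.card = Q.card + 1 ∧
    ∑ a ∈ P, (nbrs a ∩ P).card = ∑ a ∈ Q, (nbrs a ∩ Q).card + 6 := by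
  obtain ⟨c, hc, h3, rfl⟩ := h
  refine ⟨(Finset.card_erase_add_one hc).symm, ?_⟩
  have e1 : ∑ a ∈ P, (nbrs a ∩ P).card = (nbrs c ∩ P).card + ∑ a ∈ P.erase c, (nbrs a ∩ P).card :=
    (Finset.add_sum_erase P _ hc).symm
  have e2 : ∀ a ∈ P.erase c, (nbrs a ∩ P).card =
      (nbrs a ∩ P.erase c).card + (if a ∈ nbrs c then 1 else 0) := by
    intro a ha
    by_cases hac : a ∈ nbrs c
    · rw [if_pos hac]
      have hca : c ∈ nbrs a := mem_nbrs_comm.1 hac
      have : nbrs a ∩ P = insert c (nbrs a ∩ P.erase c) := by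
        ext d
        simp only [Finset.mem_inter, Finset.mem_insert, Finset.mem_erase]
        constructor
        · rintro ⟨h1, h2⟩
          by_cases h : d = c
          · exact Or.inl h
          · exact Or.inr ⟨h1, h, h2⟩
        · rintro (rfl | ⟨h1, h2, h3⟩)
          · exact ⟨hca, hc⟩
          · exact ⟨h1, h3⟩
      rw [this, Finset.card_insert_of_notMem]
      simp
    · rw [if_neg hac, add_zero]
      congr 1
      ext d
      simp only [Finset.mem_inter, Finset.mem_erase]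
      constructor
      · rintro ⟨h1, h2⟩
        refine ⟨h1, ?_, h2⟩
        rintro rfl
        exact hac (mem_nbrs_comm.1 h1)
      · rintro ⟨h1, h2, h3⟩
        exact ⟨h1, h3⟩
  rw [e1, Finset.sum_congr rfl e2, Finset.sum_add_distrib, h3]
  have e3 : ∑ a ∈ P.erase c, (if a ∈ nbrs c then 1 else 0) = 3 := by
    rw [← Finset.card_filter, ← h3]
    congr 1
    ext d
    simp only [Finset.mem_inter, Finset.mem_filter, Finset.mem_erase]
    constructor
    · rintro ⟨⟨h1, h2⟩, h3⟩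
      exact ⟨h3, h2⟩
    · rintro ⟨h1, h2⟩
      refine ⟨⟨?_, h2⟩, h1⟩
      rintro rfl
      exact self_notMem_nbrs _ h1
  rw [e3]
  ring

theorem reach_inv {P Q : Finset (ℤ × ℤ × ℤ)} (h : ReflTransGen Move P Q) :
    ∑ a ∈ P, (nbrs a ∩ P).card + 6 * Q.card = ∑ a ∈ Q, (nbrs a ∩ Q).card + 6 * P.card := by
  induction h with
  | refl => rfl
  | tail _ h ih =>
      obtain ⟨h1, h2⟩ := move_inv h
      omega

/-- the layer sum of a position in `C(2,2,k)` -/
theorem sum_box22 (k : ℕ) (f : ℤ × ℤ × ℤ → ℕ) :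
    ∑ c ∈ box 2 2 k, f c =
      ∑ z ∈ Finset.Icc 1 (k : ℤ), (f (1, 1, z) + f (1, 2, z) + f (2, 1, z) + f (2, 2, z)) := by
  have h12 : Finset.Icc (1 : ℤ) ((2 : ℕ) : ℤ) = {1, 2} := by decide
  unfold box
  rw [h12, Finset.sum_product, Finset.sum_pair (by norm_num), Finset.sum_product,
    Finset.sum_product, Finset.sum_pair (by norm_num), Finset.sum_pair (by norm_num),
    ← Finset.sum_add_distrib, ← Finset.sum_add_distrib, ← Finset.sum_add_distrib]
  apply Finset.sum_congr rfl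
  intro z _
  ring

theorem deg_box22 (k : ℕ) (hk : 2 ≤ k) (i j z : ℤ) (hi : i = 1 ∨ i = 2) (hj : j = 1 ∨ j = 2)
    (hz : 1 ≤ z ∧ z ≤ k) : (nbrs (i, j, z) ∩ box 2 2 k).card =
      if z = 1 ∨ z = k then 3 else 4 := by
  split_ifs with h
  · rcases h with rfl | rfl
    · have : nbrs (i, j, 1) ∩ box 2 2 k = {(3 - i, j, 1), (i, 3 - j, 1), (i, j, 2)} := by
        ext ⟨a, b, c⟩
        simp only [nbrs, Finset.mem_inter, Finset.mem_insert, Finset.mem_singleton,
          Prod.mk.injEq, mem_box]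
        omega
      rw [this, Finset.card_insert_of_notMem, Finset.card_insert_of_notMem,
        Finset.card_singleton]
      · simp only [Finset.mem_singleton, Prod.mk.injEq]; omega
      · simp only [Finset.mem_insert, Finset.mem_singleton, Prod.mk.injEq]; omega
    · have : nbrs (i, j, (k : ℤ)) ∩ box 2 2 k =
          {(3 - i, j, (k : ℤ)), (i, 3 - j, (k : ℤ)), (i, j, (k : ℤ) - 1)} := by
        ext ⟨a, b, c⟩
        simp only [nbrs, Finset.mem_inter, Finset.mem_insert, Finset.mem_singleton,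
          Prod.mk.injEq, mem_box]
        omega
      rw [this, Finset.card_insert_of_notMem, Finset.card_insert_of_notMem,
        Finset.card_singleton]
      · simp only [Finset.mem_singleton, Prod.mk.injEq]; omega
      · simp only [Finset.mem_insert, Finset.mem_singleton, Prod.mk.injEq]; omega
  · have : nbrs (i, j, z) ∩ box 2 2 k =
        {(3 - i, j, z), (i, 3 - j, z), (i, j, z + 1), (i, j, z - 1)} := by
      ext ⟨a, b, c⟩
      simp only [nbrs, Finset.mem_inter, Finset.mem_insert, Finset.mem_singleton,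
        Prod.mk.injEq, mem_box]
      omega
    rw [this, Finset.card_insert_of_notMem, Finset.card_insert_of_notMem,
      Finset.card_insert_of_notMem, Finset.card_singleton]
    · simp only [Finset.mem_singleton, Prod.mk.injEq]; omega
    · simp only [Finset.mem_insert, Finset.mem_singleton, Prod.mk.injEq]; omega
    · simp only [Finset.mem_insert, Finset.mem_singleton, Prod.mk.injEq]; omega

theorem degsum_box22 (k : ℕ) (hk : 2 ≤ k) :
    ∑ c ∈ box 2 2 k, (nbrs c ∩ box 2 2 k).card + 8 = 16 * k := by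
  rw [sum_box22]
  have h1 : ∀ z ∈ Finset.Icc 1 (k : ℤ),
      ((nbrs (1, 1, z) ∩ box 2 2 k).card + (nbrs (1, 2, z) ∩ box 2 2 k).card +
        (nbrs (2, 1, z) ∩ box 2 2 k).card + (nbrs (2, 2, z) ∩ box 2 2 k).card) +
        (if z = 1 ∨ z = k then 4 else 0) = 16 := by
    intro z hz
    rw [Finset.mem_Icc] at hz
    rw [deg_box22 k hk 1 1 z (Or.inl rfl) (Or.inl rfl) hz,
      deg_box22 k hk 1 2 z (Or.inl rfl) (Or.inr rfl) hz,
      deg_box22 k hk 2 1 z (Or.inr rfl) (Or.inl rfl) hz,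
      deg_box22 k hk 2 2 z (Or.inr rfl) (Or.inr rfl) hz]
    split_ifs <;> rfl
  have h2 := Finset.sum_congr rfl h1
  rw [Finset.sum_add_distrib, Finset.sum_const, ← Finset.sum_filter, Finset.sum_const] at h2
  have h3 : ((Finset.Icc (1 : ℤ) (k : ℤ)).filter (fun z => z = 1 ∨ z = (k : ℤ))) =
      {(1 : ℤ), (k : ℤ)} := by
    ext z
    simp only [Finset.mem_filter, Finset.mem_Icc, Finset.mem_insert, Finset.mem_singleton]
    omega
  rw [h3, Finset.card_pair (by omega)] at h2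
  simp only [Int.card_Icc, smul_eq_mul] at h2
  omega

theorem card_box22 (k : ℕ) : (box 2 2 k).card = 4 * k := by
  unfold box
  simp [Finset.card_product]
  ring

theorem card_solution {k : ℕ} (hk : 2 ≤ k) {S : Finset (ℤ × ℤ × ℤ)} (hS : IsSolution 2 2 k S) :
    3 * S.card = 4 * k + 4 := by
  have h1 := reach_inv hS.1
  have h2 := degsum_box22 k hk
  have h3 : ∑ a ∈ S, (nbrs a ∩ S).card = 0 := by
    apply Finset.sum_eq_zero
    intro a ha
    rw [Finset.card_eq_zero, Finset.eq_empty_iff_forall_notMem]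
    intro b hb
    rw [Finset.mem_inter] at hb
    exact hS.2 a ha b hb.2 hb.1
  rw [card_box22, h3] at h1
  omega

/-! ### Stable sets -/

/-- a nonempty set of cubes, each having at most two neighbours outside the set, is never deleted
completely -/
theorem stable {B T S : Finset (ℤ × ℤ × ℤ)} (hB : T ⊆ B) (hne : T.Nonempty)
    (hT : ∀ c ∈ T, ((nbrs c ∩ B) \ T).card ≤ 2) (h : ReflTransGen Move B S) :
    ∃ c ∈ T, c ∈ S := by
  have key : S ⊆ B ∧ ∃ c ∈ T, c ∈ S := by
    induction h with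
    | refl =>
        obtain ⟨c, hc⟩ := hne
        exact ⟨Finset.Subset.refl _, c, hc, hB hc⟩
    | @tail P Q _ h ih =>
        obtain ⟨hPB, c, hcT, hcP⟩ := ih
        obtain ⟨a, ha, h3, rfl⟩ := h
        refine ⟨(Finset.erase_subset _ _).trans hPB, ?_⟩
        by_contra hcon
        push Not at hcon
        have honly : ∀ d ∈ T, d ∈ P → d = a := by
          intro d hd hdP
          by_contra hda
          exact hcon d hd (Finset.mem_erase.2 ⟨hda, hdP⟩)
        have hca := honly c hcT hcP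
        subst hca
        have hsub : nbrs c ∩ P ⊆ (nbrs c ∩ B) \ T := by
          intro d hd
          rw [Finset.mem_inter] at hd
          rw [Finset.mem_sdiff, Finset.mem_inter]
          refine ⟨⟨hd.1, hPB hd.2⟩, fun hdT => ?_⟩
          have := honly d hdT hd.2
          subst this
          exact self_notMem_nbrs _ hd.1
        have := Finset.card_le_card hsub
        have := hT c hcT
        omega
  exact key.2

/-- the four possible neighbours of a cube in `C(2,2,k)` -/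
theorem nbrs_sub {k : ℕ} {i j z : ℤ} {d : ℤ × ℤ × ℤ} (hi : i = 1 ∨ i = 2) (hj : j = 1 ∨ j = 2)
    (hd : d ∈ nbrs (i, j, z) ∩ box 2 2 k) :
    d = (3 - i, j, z) ∨ d = (i, 3 - j, z) ∨ d = (i, j, z + 1) ∨ d = (i, j, z - 1) := by
  obtain ⟨a, b, c⟩ := d
  simp only [nbrs, Finset.mem_inter, Finset.mem_insert, Finset.mem_singleton,
    Prod.mk.injEq, mem_box] at hd
  simp only [Prod.mk.injEq]
  omega

theorem out_le {k : ℕ} {T : Finset (ℤ × ℤ × ℤ)} {i j z : ℤ} (hi : i = 1 ∨ i = 2)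
    (hj : j = 1 ∨ j = 2)
    (h : ((3 - i, j, z) ∈ T ∧ (i, 3 - j, z) ∈ T) ∨ ((3 - i, j, z) ∈ T ∧ (i, j, z + 1) ∈ T) ∨
      ((3 - i, j, z) ∈ T ∧ (i, j, z - 1) ∈ T) ∨ ((i, 3 - j, z) ∈ T ∧ (i, j, z + 1) ∈ T) ∨
      ((i, 3 - j, z) ∈ T ∧ (i, j, z - 1) ∈ T) ∨ ((i, j, z + 1) ∈ T ∧ (i, j, z - 1) ∈ T)) :
    ((nbrs (i, j, z) ∩ box 2 2 k) \ T).card ≤ 2 := by
  have key : ∀ a b : ℤ × ℤ × ℤ, (∀ d ∈ (nbrs (i, j, z) ∩ box 2 2 k) \ T, d = a ∨ d = b) →
      ((nbrs (i, j, z) ∩ box 2 2 k) \ T).card ≤ 2 := by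
    intro a b hab
    refine (Finset.card_le_card (t := {a, b}) ?_).trans Finset.card_le_two
    intro d hd
    simpa using hab d hd
  rcases h with ⟨h1, h2⟩ | ⟨h1, h2⟩ | ⟨h1, h2⟩ | ⟨h1, h2⟩ | ⟨h1, h2⟩ | ⟨h1, h2⟩
  · refine key (i, j, z + 1) (i, j, z - 1) fun d hd => ?_
    rw [Finset.mem_sdiff] at hd
    rcases nbrs_sub hi hj hd.1 with rfl | rfl | rfl | rfl <;> first | exact absurd h1 hd.2 | exact absurd h2 hd.2 | simp
  · refine key (i, 3 - j, z) (i, j, z - 1) fun d hd => ?_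
    rw [Finset.mem_sdiff] at hd
    rcases nbrs_sub hi hj hd.1 with rfl | rfl | rfl | rfl <;> first | exact absurd h1 hd.2 | exact absurd h2 hd.2 | simp
  · refine key (i, 3 - j, z) (i, j, z + 1) fun d hd => ?_
    rw [Finset.mem_sdiff] at hd
    rcases nbrs_sub hi hj hd.1 with rfl | rfl | rfl | rfl <;> first | exact absurd h1 hd.2 | exact absurd h2 hd.2 | simp
  · refine key (3 - i, j, z) (i, j, z - 1) fun d hd => ?_
    rw [Finset.mem_sdiff] at hd
    rcases nbrs_sub hi hj hd.1 with rfl | rfl | rfl | rfl <;> first | exact absurd h1 hd.2 | exact absurd h2 hd.2 | simp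
  · refine key (3 - i, j, z) (i, j, z + 1) fun d hd => ?_
    rw [Finset.mem_sdiff] at hd
    rcases nbrs_sub hi hj hd.1 with rfl | rfl | rfl | rfl <;> first | exact absurd h1 hd.2 | exact absurd h2 hd.2 | simp
  · refine key (3 - i, j, z) (i, 3 - j, z) fun d hd => ?_
    rw [Finset.mem_sdiff] at hd
    rcases nbrs_sub hi hj hd.1 with rfl | rfl | rfl | rfl <;> first | exact absurd h1 hd.2 | exact absurd h2 hd.2 | simp

/-- every layer contains a cube of the solution -/
theorem layer_pos {k : ℕ} {S : Finset (ℤ × ℤ × ℤ)} (hS : ReflTransGen Move (box 2 2 k) S)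
    {z : ℤ} (hz : 1 ≤ z ∧ z ≤ k) :
    (1, 1, z) ∈ S ∨ (1, 2, z) ∈ S ∨ (2, 1, z) ∈ S ∨ (2, 2, z) ∈ S := by
  obtain ⟨c, hc, hcS⟩ : ∃ c ∈ ({(1, 1, z), (1, 2, z), (2, 1, z), (2, 2, z)} : Finset (ℤ × ℤ × ℤ)), c ∈ S := by
    refine stable (B := box 2 2 k) ?_ ?_ ?_ hS
    · intro d hd
      simp only [Finset.mem_insert, Finset.mem_singleton] at hd
      rcases hd with rfl | rfl | rfl | rfl <;> rw [mem_box] <;> simp <;> omega
    · exact ⟨(1, 1, z), by simp⟩
    · intro c hc
      simp only [Finset.mem_insert, Finset.mem_singleton] at hc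
      rcases hc with rfl | rfl | rfl | rfl <;> exact out_le (by simp) (by simp) (by simp)
  simp only [Finset.mem_insert, Finset.mem_singleton] at hc
  rcases hc with rfl | rfl | rfl | rfl <;> tauto

theorem face1 {k : ℕ} {S : Finset (ℤ × ℤ × ℤ)} (hS : ReflTransGen Move (box 2 2 k) S)
    {z : ℤ} (hz : 1 ≤ z ∧ z + 1 ≤ k) :
    (1, 1, z) ∈ S ∨ (1, 1, z + 1) ∈ S ∨ (1, 2, z) ∈ S ∨ (1, 2, z + 1) ∈ S := by
  obtain ⟨c, hc, hcS⟩ : ∃ c ∈ ({(1, 1, z), (1, 1, z + 1), (1, 2, z), (1, 2, z + 1)} : Finset (ℤ × ℤ × ℤ)), c ∈ S := by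
    refine stable (B := box 2 2 k) ?_ ?_ ?_ hS
    · intro d hd
      simp only [Finset.mem_insert, Finset.mem_singleton] at hd
      rcases hd with rfl | rfl | rfl | rfl <;> rw [mem_box] <;> simp <;> omega
    · exact ⟨_, Finset.mem_insert_self _ _⟩
    · intro c hc
      simp only [Finset.mem_insert, Finset.mem_singleton] at hc
      rcases hc with rfl | rfl | rfl | rfl <;> exact out_le (by simp) (by simp) (by simp)
  simp only [Finset.mem_insert, Finset.mem_singleton] at hc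
  rcases hc with rfl | rfl | rfl | rfl <;> tauto

theorem face2 {k : ℕ} {S : Finset (ℤ × ℤ × ℤ)} (hS : ReflTransGen Move (box 2 2 k) S)
    {z : ℤ} (hz : 1 ≤ z ∧ z + 1 ≤ k) :
    (2, 1, z) ∈ S ∨ (2, 1, z + 1) ∈ S ∨ (2, 2, z) ∈ S ∨ (2, 2, z + 1) ∈ S := by
  obtain ⟨c, hc, hcS⟩ : ∃ c ∈ ({(2, 1, z), (2, 1, z + 1), (2, 2, z), (2, 2, z + 1)} : Finset (ℤ × ℤ × ℤ)), c ∈ S := by
    refine stable (B := box 2 2 k) ?_ ?_ ?_ hS
    · intro d hd
      simp only [Finset.mem_insert, Finset.mem_singleton] at hd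
      rcases hd with rfl | rfl | rfl | rfl <;> rw [mem_box] <;> simp <;> omega
    · exact ⟨_, Finset.mem_insert_self _ _⟩
    · intro c hc
      simp only [Finset.mem_insert, Finset.mem_singleton] at hc
      rcases hc with rfl | rfl | rfl | rfl <;> exact out_le (by simp) (by simp) (by simp)
  simp only [Finset.mem_insert, Finset.mem_singleton] at hc
  rcases hc with rfl | rfl | rfl | rfl <;> tauto

theorem face3 {k : ℕ} {S : Finset (ℤ × ℤ × ℤ)} (hS : ReflTransGen Move (box 2 2 k) S)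
    {z : ℤ} (hz : 1 ≤ z ∧ z + 1 ≤ k) :
    (1, 1, z) ∈ S ∨ (1, 1, z + 1) ∈ S ∨ (2, 1, z) ∈ S ∨ (2, 1, z + 1) ∈ S := by
  obtain ⟨c, hc, hcS⟩ : ∃ c ∈ ({(1, 1, z), (1, 1, z + 1), (2, 1, z), (2, 1, z + 1)} : Finset (ℤ × ℤ × ℤ)), c ∈ S := by
    refine stable (B := box 2 2 k) ?_ ?_ ?_ hS
    · intro d hd
      simp only [Finset.mem_insert, Finset.mem_singleton] at hd
      rcases hd with rfl | rfl | rfl | rfl <;> rw [mem_box] <;> simp <;> omega
    · exact ⟨_, Finset.mem_insert_self _ _⟩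
    · intro c hc
      simp only [Finset.mem_insert, Finset.mem_singleton] at hc
      rcases hc with rfl | rfl | rfl | rfl <;> exact out_le (by simp) (by simp) (by simp)
  simp only [Finset.mem_insert, Finset.mem_singleton] at hc
  rcases hc with rfl | rfl | rfl | rfl <;> tauto

theorem face4 {k : ℕ} {S : Finset (ℤ × ℤ × ℤ)} (hS : ReflTransGen Move (box 2 2 k) S)
    {z : ℤ} (hz : 1 ≤ z ∧ z + 1 ≤ k) :
    (1, 2, z) ∈ S ∨ (1, 2, z + 1) ∈ S ∨ (2, 2, z) ∈ S ∨ (2, 2, z + 1) ∈ S := by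
  obtain ⟨c, hc, hcS⟩ : ∃ c ∈ ({(1, 2, z), (1, 2, z + 1), (2, 2, z), (2, 2, z + 1)} : Finset (ℤ × ℤ × ℤ)), c ∈ S := by
    refine stable (B := box 2 2 k) ?_ ?_ ?_ hS
    · intro d hd
      simp only [Finset.mem_insert, Finset.mem_singleton] at hd
      rcases hd with rfl | rfl | rfl | rfl <;> rw [mem_box] <;> simp <;> omega
    · exact ⟨_, Finset.mem_insert_self _ _⟩
    · intro c hc
      simp only [Finset.mem_insert, Finset.mem_singleton] at hc
      rcases hc with rfl | rfl | rfl | rfl <;> exact out_le (by simp) (by simp) (by simp)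
  simp only [Finset.mem_insert, Finset.mem_singleton] at hc
  rcases hc with rfl | rfl | rfl | rfl <;> tauto

theorem hex1 {k : ℕ} {S : Finset (ℤ × ℤ × ℤ)} (hS : ReflTransGen Move (box 2 2 k) S)
    {z : ℤ} (hz : 1 ≤ z ∧ z + 1 ≤ k) :
    (1, 1, z + 1) ∈ S ∨ (1, 2, z) ∈ S ∨ (1, 2, z + 1) ∈ S ∨ (2, 1, z) ∈ S ∨ (2, 1, z + 1) ∈ S ∨ (2, 2, z) ∈ S := by
  obtain ⟨c, hc, hcS⟩ : ∃ c ∈ ({(1, 1, z + 1), (1, 2, z), (1, 2, z + 1), (2, 1, z), (2, 1, z + 1), (2, 2, z)} : Finset (ℤ × ℤ × ℤ)), c ∈ S := by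
    refine stable (B := box 2 2 k) ?_ ?_ ?_ hS
    · intro d hd
      simp only [Finset.mem_insert, Finset.mem_singleton] at hd
      rcases hd with rfl | rfl | rfl | rfl | rfl | rfl <;> rw [mem_box] <;> simp <;> omega
    · exact ⟨_, Finset.mem_insert_self _ _⟩
    · intro c hc
      simp only [Finset.mem_insert, Finset.mem_singleton] at hc
      rcases hc with rfl | rfl | rfl | rfl | rfl | rfl <;> exact out_le (by simp) (by simp) (by simp)
  simp only [Finset.mem_insert, Finset.mem_singleton] at hc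
  rcases hc with rfl | rfl | rfl | rfl | rfl | rfl <;> tauto

theorem hex2 {k : ℕ} {S : Finset (ℤ × ℤ × ℤ)} (hS : ReflTransGen Move (box 2 2 k) S)
    {z : ℤ} (hz : 1 ≤ z ∧ z + 1 ≤ k) :
    (1, 1, z) ∈ S ∨ (1, 1, z + 1) ∈ S ∨ (1, 2, z + 1) ∈ S ∨ (2, 1, z) ∈ S ∨ (2, 2, z) ∈ S ∨ (2, 2, z + 1) ∈ S := by
  obtain ⟨c, hc, hcS⟩ : ∃ c ∈ ({(1, 1, z), (1, 1, z + 1), (1, 2, z + 1), (2, 1, z), (2, 2, z), (2, 2, z + 1)} : Finset (ℤ × ℤ × ℤ)), c ∈ S := by
    refine stable (B := box 2 2 k) ?_ ?_ ?_ hS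
    · intro d hd
      simp only [Finset.mem_insert, Finset.mem_singleton] at hd
      rcases hd with rfl | rfl | rfl | rfl | rfl | rfl <;> rw [mem_box] <;> simp <;> omega
    · exact ⟨_, Finset.mem_insert_self _ _⟩
    · intro c hc
      simp only [Finset.mem_insert, Finset.mem_singleton] at hc
      rcases hc with rfl | rfl | rfl | rfl | rfl | rfl <;> exact out_le (by simp) (by simp) (by simp)
  simp only [Finset.mem_insert, Finset.mem_singleton] at hc
  rcases hc with rfl | rfl | rfl | rfl | rfl | rfl <;> tauto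

theorem hex3 {k : ℕ} {S : Finset (ℤ × ℤ × ℤ)} (hS : ReflTransGen Move (box 2 2 k) S)
    {z : ℤ} (hz : 1 ≤ z ∧ z + 1 ≤ k) :
    (1, 1, z) ∈ S ∨ (1, 1, z + 1) ∈ S ∨ (1, 2, z) ∈ S ∨ (2, 1, z + 1) ∈ S ∨ (2, 2, z) ∈ S ∨ (2, 2, z + 1) ∈ S := by
  obtain ⟨c, hc, hcS⟩ : ∃ c ∈ ({(1, 1, z), (1, 1, z + 1), (1, 2, z), (2, 1, z + 1), (2, 2, z), (2, 2, z + 1)} : Finset (ℤ × ℤ × ℤ)), c ∈ S := by
    refine stable (B := box 2 2 k) ?_ ?_ ?_ hS
    · intro d hd
      simp only [Finset.mem_insert, Finset.mem_singleton] at hd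
      rcases hd with rfl | rfl | rfl | rfl | rfl | rfl <;> rw [mem_box] <;> simp <;> omega
    · exact ⟨_, Finset.mem_insert_self _ _⟩
    · intro c hc
      simp only [Finset.mem_insert, Finset.mem_singleton] at hc
      rcases hc with rfl | rfl | rfl | rfl | rfl | rfl <;> exact out_le (by simp) (by simp) (by simp)
  simp only [Finset.mem_insert, Finset.mem_singleton] at hc
  rcases hc with rfl | rfl | rfl | rfl | rfl | rfl <;> tauto

theorem hex4 {k : ℕ} {S : Finset (ℤ × ℤ × ℤ)} (hS : ReflTransGen Move (box 2 2 k) S)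
    {z : ℤ} (hz : 1 ≤ z ∧ z + 1 ≤ k) :
    (1, 1, z) ∈ S ∨ (1, 2, z) ∈ S ∨ (1, 2, z + 1) ∈ S ∨ (2, 1, z) ∈ S ∨ (2, 1, z + 1) ∈ S ∨ (2, 2, z + 1) ∈ S := by
  obtain ⟨c, hc, hcS⟩ : ∃ c ∈ ({(1, 1, z), (1, 2, z), (1, 2, z + 1), (2, 1, z), (2, 1, z + 1), (2, 2, z + 1)} : Finset (ℤ × ℤ × ℤ)), c ∈ S := by
    refine stable (B := box 2 2 k) ?_ ?_ ?_ hS
    · intro d hd
      simp only [Finset.mem_insert, Finset.mem_singleton] at hd
      rcases hd with rfl | rfl | rfl | rfl | rfl | rfl <;> rw [mem_box] <;> simp <;> omega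
    · exact ⟨_, Finset.mem_insert_self _ _⟩
    · intro c hc
      simp only [Finset.mem_insert, Finset.mem_singleton] at hc
      rcases hc with rfl | rfl | rfl | rfl | rfl | rfl <;> exact out_le (by simp) (by simp) (by simp)
  simp only [Finset.mem_insert, Finset.mem_singleton] at hc
  rcases hc with rfl | rfl | rfl | rfl | rfl | rfl <;> tauto

theorem end_edge {k : ℕ} (hk : 2 ≤ k) {S : Finset (ℤ × ℤ × ℤ)}
    (hS : ReflTransGen Move (box 2 2 k) S)
    {z : ℤ} (hz : z = 1 ∨ z = k) {i : ℤ} (hi : i = 1 ∨ i = 2) :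
    (i, 1, z) ∈ S ∨ (i, 2, z) ∈ S := by
  obtain ⟨c, hc, hcS⟩ : ∃ c ∈ ({(i, 1, z), (i, 2, z)} : Finset (ℤ × ℤ × ℤ)), c ∈ S := by
    refine stable (B := box 2 2 k) ?_ ?_ ?_ hS
    · intro d hd
      simp only [Finset.mem_insert, Finset.mem_singleton] at hd
      rcases hd with rfl | rfl <;> rw [mem_box] <;> simp <;> omega
    · exact ⟨_, Finset.mem_insert_self _ _⟩
    · intro c hc
      have hc' : ∃ j, (j = 1 ∨ j = 2) ∧ c = (i, j, z) := by
        simp only [Finset.mem_insert, Finset.mem_singleton] at hc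
        rcases hc with rfl | rfl
        · exact ⟨1, by simp, rfl⟩
        · exact ⟨2, by simp, rfl⟩
      obtain ⟨j, hj, rfl⟩ := hc'
      have hT : (i, 3 - j, z) ∈ ({(i, 1, z), (i, 2, z)} : Finset (ℤ × ℤ × ℤ)) := by
        rcases hj with rfl | rfl <;> simp
      refine (Finset.card_le_card (t := {(3 - i, j, z), (i, j, if z = 1 then 2 else (k : ℤ) - 1)})
        ?_).trans Finset.card_le_two
      intro d hd
      rw [Finset.mem_sdiff] at hd
      have hdb := (Finset.mem_inter.1 hd.1).2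
      rw [mem_box] at hdb
      simp only [Finset.mem_insert, Finset.mem_singleton]
      rcases nbrs_sub hi hj hd.1 with rfl | rfl | rfl | rfl
      · exact Or.inl rfl
      · exact absurd hT hd.2
      · right
        simp only [Prod.mk.injEq, true_and]
        simp only at hdb
        split_ifs <;> omega
      · right
        simp only [Prod.mk.injEq, true_and]
        simp only at hdb
        split_ifs <;> omega
  simp only [Finset.mem_insert, Finset.mem_singleton] at hc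
  rcases hc with rfl | rfl <;> tauto

/-- indicator of `S` -/
def ind (S : Finset (ℤ × ℤ × ℤ)) (c : ℤ × ℤ × ℤ) : ℕ := if c ∈ S then 1 else 0

theorem ind_le (S : Finset (ℤ × ℤ × ℤ)) (c : ℤ × ℤ × ℤ) : ind S c ≤ 1 := by
  unfold ind; split_ifs <;> omega

theorem ind_pos {S : Finset (ℤ × ℤ × ℤ)} {c : ℤ × ℤ × ℤ} (h : c ∈ S) : ind S c = 1 := by
  unfold ind; rw [if_pos h]

/-- number of cubes of `S` in the layer `z` -/
def lay (S : Finset (ℤ × ℤ × ℤ)) (z : ℤ) : ℕ :=
  ind S (1, 1, z) + ind S (1, 2, z) + ind S (2, 1, z) + ind S (2, 2, z)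

theorem lay_pair {k : ℕ} {S : Finset (ℤ × ℤ × ℤ)} (hS : ReflTransGen Move (box 2 2 k) S)
    {z : ℤ} (hz : 1 ≤ z ∧ z + 1 ≤ k) : 3 ≤ lay S z + lay S (z + 1) := by
  have l1 := layer_pos hS (z := z) ⟨hz.1, by omega⟩
  have l2 := layer_pos hS (z := z + 1) ⟨by omega, hz.2⟩
  have f1 := face1 hS hz
  have f2 := face2 hS hz
  have f3 := face3 hS hz
  have f4 := face4 hS hz
  have h1 := hex1 hS hz
  have h2 := hex2 hS hz
  have h3 := hex3 hS hz
  have h4 := hex4 hS hz
  have e : ∀ c, c ∈ S ↔ 1 ≤ ind S c := by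
    intro c
    unfold ind
    split_ifs with h <;> simp [h]
  rw [e, e, e, e] at l1 l2 f1 f2 f3 f4
  rw [e, e, e, e, e, e] at h1 h2 h3 h4
  have b1 := ind_le S (1, 1, z)
  have b2 := ind_le S (1, 2, z)
  have b3 := ind_le S (2, 1, z)
  have b4 := ind_le S (2, 2, z)
  have b5 := ind_le S (1, 1, z + 1)
  have b6 := ind_le S (1, 2, z + 1)
  have b7 := ind_le S (2, 1, z + 1)
  have b8 := ind_le S (2, 2, z + 1)
  unfold lay
  generalize ind S (1, 1, z) = x1 at *
  generalize ind S (1, 2, z) = x2 at *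
  generalize ind S (2, 1, z) = x3 at *
  generalize ind S (2, 2, z) = x4 at *
  generalize ind S (1, 1, z + 1) = y1 at *
  generalize ind S (1, 2, z + 1) = y2 at *
  generalize ind S (2, 1, z + 1) = y3 at *
  generalize ind S (2, 2, z + 1) = y4 at *
  clear e
  interval_cases x1 <;> interval_cases x2 <;> interval_cases x3 <;> interval_cases x4 <;> omega

theorem lay_end {k : ℕ} (hk : 2 ≤ k) {S : Finset (ℤ × ℤ × ℤ)}
    (hS : ReflTransGen Move (box 2 2 k) S) {z : ℤ} (hz : z = 1 ∨ z = k) : 2 ≤ lay S z := by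
  have h1 := end_edge hk hS hz (i := 1) (Or.inl rfl)
  have h2 := end_edge hk hS hz (i := 2) (Or.inr rfl)
  unfold lay
  rcases h1 with h1 | h1 <;> rcases h2 with h2 | h2 <;> rw [ind_pos h1, ind_pos h2] <;> omega

theorem reach_subset {B S : Finset (ℤ × ℤ × ℤ)} (h : ReflTransGen Move B S) : S ⊆ B := by
  induction h with
  | refl => exact Finset.Subset.refl _
  | tail _ h ih =>
      obtain ⟨a, ha, h3, rfl⟩ := h
      exact (Finset.erase_subset _ _).trans ih

theorem card_eq_lay {k : ℕ} {S : Finset (ℤ × ℤ × ℤ)} (hS : ReflTransGen Move (box 2 2 k) S) :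
    S.card = ∑ n ∈ Finset.range k, lay S ((n : ℤ) + 1) := by
  have h1 : S.card = ∑ c ∈ box 2 2 k, ind S c := by
    unfold ind
    rw [← Finset.sum_filter, Finset.card_eq_sum_ones]
    congr 1
    ext c
    simp only [Finset.mem_filter]
    exact ⟨fun h => ⟨reach_subset hS h, h⟩, fun h => h.2⟩
  rw [h1, sum_box22]
  refine Finset.sum_nbij' (fun z : ℤ => (z - 1).toNat) (fun n : ℕ => (n : ℤ) + 1) ?_ ?_ ?_ ?_ ?_
  · intro z hz
    rw [Finset.mem_Icc] at hz
    rw [Finset.mem_range]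
    omega
  · intro n hn
    rw [Finset.mem_range] at hn
    rw [Finset.mem_Icc]
    omega
  · intro z hz
    rw [Finset.mem_Icc] at hz
    show (((z - 1).toNat : ℕ) : ℤ) + 1 = z
    omega
  · intro n _
    show ((n : ℤ) + 1 - 1).toNat = n
    omega
  · intro z hz
    rw [Finset.mem_Icc] at hz
    have h : (((z - 1).toNat : ℕ) : ℤ) + 1 = z := by omega
    show _ = lay S ((((z - 1).toNat : ℕ) : ℤ) + 1)
    rw [h]
    rfl

theorem two_sum (s : ℕ → ℕ) (n : ℕ) (h : ∀ i, i < n → 3 ≤ s i + s (i + 1)) :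
    3 * n + s 0 + s n ≤ 2 * ∑ i ∈ Finset.range (n + 1), s i := by
  induction n with
  | zero => simp; omega
  | succ n ih =>
      have h1 := ih (fun i hi => h i (by omega))
      have h2 := h n (by omega)
      rw [Finset.sum_range_succ]
      omega

theorem no_solution22 {k : ℕ} (h3 : 3 ≤ k) (h5 : k ≠ 5) : ¬ HasSolution 2 2 k := by
  rintro ⟨S, hS⟩
  have h1 := card_solution (by omega) hS
  have h2 := card_eq_lay hS.1
  obtain ⟨m, rfl⟩ : ∃ m, k = m + 1 := ⟨k - 1, by omega⟩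
  have h4 := two_sum (fun n => lay S ((n : ℤ) + 1)) m (fun i hi => by
    have := lay_pair hS.1 (z := (i : ℤ) + 1) ⟨by omega, by push_cast; omega⟩
    push_cast
    exact this)
  have e1 : 2 ≤ lay S (((0 : ℕ) : ℤ) + 1) := lay_end (by omega) hS.1 (Or.inl (by norm_num))
  have e2 : 2 ≤ lay S ((m : ℤ) + 1) := lay_end (by omega) hS.1 (Or.inr (by push_cast; ring))
  have h6 : ∑ i ∈ Finset.range (m + 1), (fun n : ℕ => lay S ((n : ℤ) + 1)) i = S.card := h2.symm
  rw [h6] at h4
  have e3 : 2 ≤ (fun n : ℕ => lay S ((n : ℤ) + 1)) 0 := e1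
  have e4 : 2 ≤ (fun n : ℕ => lay S ((n : ℤ) + 1)) m := e2
  omega

/-- **Resolution of the three statements.**
(a) is true: `C(2,2,k)` has no solution for `k ≥ 3`, `k ≠ 5`;
(b) is false: it is not the case that `C(2,3,k)` has no solution for every `k ≠ 6`, as `C(2,3,9)`
has one; (c) is false: `C(3,3,6)` has a solution. -/
theorem result :
    (∀ k : ℕ, 3 ≤ k → k ≠ 5 → ¬ HasSolution 2 2 k) ∧
    (HasSolution 2 3 9 ∧ ¬ ∀ k : ℕ, 1 ≤ k → k ≠ 6 → ¬ HasSolution 2 3 k) ∧
    (HasSolution 3 3 6 ∧ ¬ ((∀ k : ℕ, Odd k → HasSolution 3 3 k) ∧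
      ∀ k : ℕ, 1 ≤ k → Even k → k ≠ 4 → ¬ HasSolution 3 3 k)) := by
  refine ⟨fun k h3 h5 => no_solution22 h3 h5, ⟨sol239, fun h => h 9 (by norm_num) (by norm_num) sol239⟩,
    sol336, fun h => h.2 6 (by norm_num) (by decide) (by norm_num) sol336⟩

end Pool.Agent.Results.MP_93d976_co.ThinCuboids
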